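import Pool.Agent.Lib.MP_e1e19a_an.H26Dim

/-!
For `δ < 1/2` the Eisenstein series has at least `c λ ^ 2` compact nodal domains.
-/

namespace Pool.Agent.Results.MP_e1e19a_an.CompactDomains

open UpperHalfPlane Pool.Agent.Lib.MP_e1e19a_an
open scoped MatrixGroups

theorem result (Γ : Subgroup SL(2, ℝ)) (h : Schottky Γ) (hδ : dimH (limitSet Γ) < 1 / 2) :
    ∃ K : Set (Surf Γ), IsCompact K ∧ ∃ c > (0 : ℝ), ∃ l₀ : ℝ, ∀ l ≥ l₀, ∀ C : ℂ, C ≠ 0 →
      ∃ 𝒟 : Finset (Set (Surf Γ)), c * l ^ 2 ≤ 𝒟.card ∧ ∀ D ∈ 𝒟,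
        IsNodalDomain Γ (fun z => (C * eis Γ (1 / 2 + l * Complex.I) z).re) D ∧
          IsCompact (closure D) ∧ closure D ⊆ K := by
  classical
  have := h.discrete
  have hs := summable_of_dim h hδ
  have : Infinite Γ := not_finite_iff_infinite.1 fun _ => by
    obtain ⟨r, hr⟩ := h.two.nonempty
    obtain ⟨γ, e⟩ := (Set.finite_range fun γ : Γ => ((γ • I : ℍ) : ℂ)).isClosed.closure_subset hr
    exact (γ • I : ℍ).im_pos.ne' (by simpa using congrArg Complex.im e)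
  obtain ⟨i, hi⟩ := Infinite.exists_notMem_finset ({1} : Finset Γ)
  obtain ⟨j, hj⟩ := Infinite.exists_notMem_finset ({1, i} : Finset Γ)
  simp only [Finset.mem_insert, Finset.mem_singleton, not_or] at hi hj
  obtain ⟨z, hz⟩ := hyperbola (fun k : Γ => (k : SL(2, ℝ))) 1 rfl
    (fun k hk e => hk (eq_one Γ h.free hs k e)) (pole_inj Γ h.free hs) hs i j hi hj.1 (Ne.symm hj.2)
  exact ⟨_, (isCompact_closedBall z 1).image continuous_quot_mk,
    count_quot Γ h.free hs z hz _ (Metric.closedBall_mem_nhds z one_pos)⟩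

end Pool.Agent.Results.MP_e1e19a_an.CompactDomains
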